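import Mathlib

/-!
# Degree spread in two-coloured complete graphs

A red/blue colouring of the edges of `K_n` is given by its red graph `R` on `Fin n`; the blue
graph is `Rᶜ`.  We show that the proposed identity `Φ_n(G,H) = r(G,H) - 2` fails for `n = r(G,H)`
for all graphs `G`, `H` of minimum degree at least two, and more generally for all `n` with
`r(G,H) ≤ n ≤ r(G,H) + δ - 2` if both minimum degrees are at least `δ ≥ 2`.
-/

set_option autoImplicit false

open SimpleGraph

namespace Pool.Agent.Results.MP_f2857b_co.SpreadFails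

/-- The degree of a vertex. -/
noncomputable def deg {V : Type} (R : SimpleGraph V) (v : V) : ℕ := (R.neighborSet v).ncard

/-- The Ramsey number `r(G,H)`. -/
noncomputable def ramsey {V W : Type} (G : SimpleGraph V) (H : SimpleGraph W) : ℕ :=
  sInf {N : ℕ | ∀ R : SimpleGraph (Fin N), G ⊑ R ∨ H ⊑ Rᶜ}

/-- `X` is the vertex set of a red copy of `G` or of a blue copy of `H`. -/
def Admissible {V W : Type} (G : SimpleGraph V) (H : SimpleGraph W) {n : ℕ}
    (R : SimpleGraph (Fin n)) (X : Finset (Fin n)) : Prop :=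
  (∃ f : Copy G R, Set.range f = (X : Set (Fin n))) ∨
    (∃ f : Copy H Rᶜ, Set.range f = (X : Set (Fin n)))

/-- The degree spread of a vertex set: largest red degree minus smallest red degree. -/
noncomputable def setSpread {n : ℕ} (R : SimpleGraph (Fin n)) (X : Finset (Fin n)) : ℕ :=
  X.sup (deg R) - sInf (deg R '' (X : Set (Fin n)))

/-- The degree spread of the colouring: the minimum over all admissible sets. -/
noncomputable def spread {V W : Type} (G : SimpleGraph V) (H : SimpleGraph W) {n : ℕ}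
    (R : SimpleGraph (Fin n)) : ℕ :=
  sInf {s : ℕ | ∃ X : Finset (Fin n), Admissible G H R X ∧ s = setSpread R X}

/-- `Φ_n(G,H)`: the maximum of the degree spread over all colourings of `K_n`. -/
noncomputable def Phi {V W : Type} (G : SimpleGraph V) (H : SimpleGraph W) (n : ℕ) : ℕ :=
  sSup {s : ℕ | ∃ R : SimpleGraph (Fin n), s = spread G H R}

/-! ### Ramsey's theorem -/

lemma ramsey_cliques (m : ℕ) : ∀ a b : ℕ, a + b = m → ∃ N : ℕ, ∀ (n : ℕ) (R : SimpleGraph (Fin n))
    (S : Finset (Fin n)), N ≤ S.card → (∃ s ⊆ S, R.IsNClique a s) ∨ (∃ s ⊆ S, Rᶜ.IsNClique b s) := by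
  classical
  induction m with
  | zero =>
    intro a b hab
    obtain ⟨rfl, rfl⟩ : a = 0 ∧ b = 0 := by omega
    exact ⟨0, fun n R S _ => Or.inl ⟨∅, by simp, by simp [isNClique_iff]⟩⟩
  | succ m ih =>
    intro a b hab
    rcases Nat.eq_zero_or_pos a with rfl | ha
    · exact ⟨0, fun n R S _ => Or.inl ⟨∅, by simp, by simp [isNClique_iff]⟩⟩
    rcases Nat.eq_zero_or_pos b with rfl | hb
    · exact ⟨0, fun n R S _ => Or.inr ⟨∅, by simp, by simp [isNClique_iff]⟩⟩
    obtain ⟨N1, h1⟩ := ih (a - 1) b (by omega)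
    obtain ⟨N2, h2⟩ := ih a (b - 1) (by omega)
    refine ⟨N1 + N2 + 1, fun n R S hS => ?_⟩
    have hne : S.Nonempty := by rw [← Finset.card_pos]; omega
    obtain ⟨v, hv⟩ := hne
    have hsplit : ((S.erase v).filter (fun u => R.Adj v u)).card +
        ((S.erase v).filter (fun u => ¬ R.Adj v u)).card = S.card - 1 := by
      rw [Finset.card_filter_add_card_filter_not, Finset.card_erase_of_mem hv]
    have hor : N1 ≤ ((S.erase v).filter (fun u => R.Adj v u)).card ∨
        N2 ≤ ((S.erase v).filter (fun u => ¬ R.Adj v u)).card := by omega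
    have hins : ∀ (Q : SimpleGraph (Fin n)) (c : ℕ) (s : Finset (Fin n)), 0 < c →
        Q.IsNClique (c - 1) s → (∀ u ∈ s, Q.Adj v u) → Q.IsNClique c (insert v s) := by
      intro Q c s hc hs hadj
      have := hs.insert hadj
      rwa [Nat.sub_add_cancel hc] at this
    rcases hor with h | h
    · rcases h1 n R _ h with ⟨s, hs, hc⟩ | ⟨s, hs, hc⟩
      · left
        refine ⟨insert v s, ?_, hins R a s ha hc ?_⟩
        · intro u hu
          rcases Finset.mem_insert.1 hu with rfl | hu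
          · exact hv
          · exact Finset.mem_of_mem_erase (Finset.mem_filter.1 (hs hu)).1
        · intro u hu
          exact (Finset.mem_filter.1 (hs hu)).2
      · right
        exact ⟨s, fun u hu => Finset.mem_of_mem_erase (Finset.mem_filter.1 (hs hu)).1, hc⟩
    · rcases h2 n R _ h with ⟨s, hs, hc⟩ | ⟨s, hs, hc⟩
      · left
        exact ⟨s, fun u hu => Finset.mem_of_mem_erase (Finset.mem_filter.1 (hs hu)).1, hc⟩
      · right
        refine ⟨insert v s, ?_, hins Rᶜ b s hb hc ?_⟩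
        · intro u hu
          rcases Finset.mem_insert.1 hu with rfl | hu
          · exact hv
          · exact Finset.mem_of_mem_erase (Finset.mem_filter.1 (hs hu)).1
        · intro u hu
          have h3 := Finset.mem_filter.1 (hs hu)
          rw [compl_adj]
          exact ⟨(Finset.ne_of_mem_erase h3.1).symm, h3.2⟩

lemma isContained_of_clique {V : Type} [Fintype V] (G : SimpleGraph V) {n : ℕ}
    {Q : SimpleGraph (Fin n)} {s : Finset (Fin n)} (hs : Q.IsNClique (Fintype.card V) s) :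
    G ⊑ Q := by
  have e : V ≃ s := Fintype.equivOfCardEq (by rw [Fintype.card_coe, hs.card_eq])
  refine ⟨⟨⟨fun v => (e v : Fin n), ?_⟩, ?_⟩⟩
  · intro v w hvw
    refine hs.isClique (e v).2 (e w).2 (fun h => hvw.ne (e.injective (Subtype.ext h)))
  · intro v w h
    exact e.injective (Subtype.ext h)

lemma ramsey_mem {V W : Type} [Fintype V] [Fintype W] (G : SimpleGraph V) (H : SimpleGraph W) :
    ramsey G H ∈ {N : ℕ | ∀ R : SimpleGraph (Fin N), G ⊑ R ∨ H ⊑ Rᶜ} := by
  apply Nat.sInf_mem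
  obtain ⟨N, hN⟩ := ramsey_cliques _ (Fintype.card V) (Fintype.card W) rfl
  refine ⟨N, fun R => ?_⟩
  rcases hN N R Finset.univ (by simp) with ⟨s, -, hs⟩ | ⟨s, -, hs⟩
  · exact Or.inl (isContained_of_clique G hs)
  · exact Or.inr (isContained_of_clique H hs)

lemma exists_admissible {V W : Type} [Fintype V] [Fintype W] (G : SimpleGraph V)
    (H : SimpleGraph W) {n : ℕ} (hn : ramsey G H ≤ n) (R : SimpleGraph (Fin n)) :
    ∃ X, Admissible G H R X := by
  have e : Fin (ramsey G H) ↪ Fin n := ⟨Fin.castLE hn, Fin.castLE_injective hn⟩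
  classical
  rcases ramsey_mem G H (R.comap e) with h | h
  · obtain ⟨f⟩ := h
    refine ⟨Finset.univ.image (fun v => e (f v)), Or.inl ⟨⟨⟨fun v => e (f v), ?_⟩, ?_⟩, ?_⟩⟩
    · intro v w hvw
      exact f.toHom.map_adj hvw
    · intro v w h
      exact f.injective (e.injective h)
    · ext x; simp only [Finset.coe_image, Finset.coe_univ, Set.image_univ]; rfl
  · obtain ⟨f⟩ := h
    refine ⟨Finset.univ.image (fun v => e (f v)), Or.inr ⟨⟨⟨fun v => e (f v), ?_⟩, ?_⟩, ?_⟩⟩
    · intro v w hvw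
      have h1 := f.toHom.map_adj hvw
      rw [compl_adj] at h1 ⊢
      exact ⟨fun h => h1.1 (e.injective h), h1.2⟩
    · intro v w h
      exact f.injective (e.injective h)
    · ext x; simp only [Finset.coe_image, Finset.coe_univ, Set.image_univ]; rfl

/-- In a copy of a graph of minimum degree `δ` all degrees are at least `δ`. -/
lemma le_degree_of_copy {V : Type} {G : SimpleGraph V} {δ n : ℕ}
    {Q : SimpleGraph (Fin n)} (hG : ∀ v, δ ≤ deg G v) (f : Copy G Q) (v : V) :
    δ ≤ deg Q (f v) := by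
  refine (hG v).trans ?_
  unfold deg
  rw [← Set.ncard_image_of_injective (G.neighborSet v) f.injective]
  apply Set.ncard_le_ncard _ (Set.toFinite _)
  rintro x ⟨w, hw, rfl⟩
  exact f.toHom.map_adj hw

lemma deg_compl {n : ℕ} (R : SimpleGraph (Fin n)) (x : Fin n) :
    deg R x + deg Rᶜ x + 1 = n := by
  have h1 : R.neighborSet x ∪ Rᶜ.neighborSet x = {x}ᶜ := by
    ext y
    simp only [Set.mem_union, mem_neighborSet, compl_adj, Set.mem_compl_iff, Set.mem_singleton_iff]
    constructor
    · rintro (h | h)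
      · exact h.ne'
      · exact fun h' => h.1 h'.symm
    · intro h
      by_cases h' : R.Adj x y
      · exact Or.inl h'
      · exact Or.inr ⟨fun h'' => h h''.symm, h'⟩
  have h2 : Disjoint (R.neighborSet x) (Rᶜ.neighborSet x) := by
    rw [Set.disjoint_left]
    intro y hy hy'
    rw [mem_neighborSet] at hy hy'
    rw [compl_adj] at hy'
    exact hy'.2 hy
  have h3 := Set.ncard_union_eq h2 (Set.toFinite _) (Set.toFinite _)
  rw [h1] at h3
  have h4 := Set.ncard_add_ncard_compl ({x} : Set (Fin n))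
  rw [Set.ncard_singleton, Nat.card_eq_fintype_card, Fintype.card_fin] at h4
  unfold deg
  omega

lemma setSpread_le {V W : Type} [Nonempty V] [Nonempty W]
    {G : SimpleGraph V} {H : SimpleGraph W}
    {δ n : ℕ} {R : SimpleGraph (Fin n)} (hG : ∀ v, δ ≤ deg G v) (hH : ∀ v, δ ≤ deg H v)
    {X : Finset (Fin n)} (hX : Admissible G H R X) : setSpread R X + δ + 1 ≤ n := by
  have hcompl := deg_compl R
  have hne : X.Nonempty := by
    rcases hX with ⟨f, hf⟩ | ⟨f, hf⟩
    · exact ⟨f (Classical.arbitrary V), by rw [← Finset.mem_coe, ← hf]; exact ⟨_, rfl⟩⟩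
    · exact ⟨f (Classical.arbitrary W), by rw [← Finset.mem_coe, ← hf]; exact ⟨_, rfl⟩⟩
  have hmem : sInf (deg R '' (X : Set (Fin n))) ∈ (deg R '' (X : Set (Fin n))) :=
    Nat.sInf_mem (hne.elim fun x hx => ⟨_, x, hx, rfl⟩)
  obtain ⟨y, hy, hy'⟩ := hmem
  obtain ⟨x, hx, hx'⟩ := Finset.exists_mem_eq_sup X hne (deg R)
  unfold setSpread
  rw [hx', ← hy']
  rcases hX with ⟨f, hf⟩ | ⟨f, hf⟩
  · rw [← hf] at hy
    obtain ⟨v, rfl⟩ := hy
    have h1 := le_degree_of_copy hG f v
    have h2 := hcompl x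
    have h3 := hcompl (f v)
    omega
  · have hxX : x ∈ (X : Set (Fin n)) := hx
    rw [← hf] at hxX
    obtain ⟨v, rfl⟩ := hxX
    have h1 := le_degree_of_copy hH f v
    have h2 := hcompl (f v)
    omega

/-- The upper bound `Φ_n(G,H) ≤ n - 1 - δ`. -/
lemma Phi_le {V W : Type} [Fintype V] [Fintype W] [Nonempty V] [Nonempty W]
    {G : SimpleGraph V} {H : SimpleGraph W} {δ n : ℕ} (hG : ∀ v, δ ≤ deg G v)
    (hH : ∀ v, δ ≤ deg H v) (hn : ramsey G H ≤ n) : Phi G H n + δ + 1 ≤ n := by
  have hb : ∀ R : SimpleGraph (Fin n), spread G H R + δ + 1 ≤ n := by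
    intro R
    obtain ⟨X, hX⟩ := exists_admissible G H hn R
    have h1 : spread G H R ≤ setSpread R X := Nat.sInf_le ⟨X, hX, rfl⟩
    have h2 := setSpread_le hG hH hX
    omega
  have h1 : Phi G H n ≤ n - δ - 1 := by
    have hne : {s : ℕ | ∃ R : SimpleGraph (Fin n), s = spread G H R}.Nonempty := ⟨_, ⊥, rfl⟩
    refine csSup_le hne ?_
    rintro s ⟨R, rfl⟩
    have := hb R
    omega
  have h2 := hb ⊥
  omega

lemma three_le_ramsey {V W : Type} [Fintype V] [Fintype W] [Nonempty V] [Nonempty W]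
    {G : SimpleGraph V} {H : SimpleGraph W} {δ : ℕ} (hG : ∀ v, δ ≤ deg G v)
    (hH : ∀ v, δ ≤ deg H v) : δ + 1 ≤ ramsey G H := by
  have := Phi_le hG hH le_rfl
  omega

/-- **Disproof of Q1.** If `G` and `H` have minimum degree at least `δ ≥ 2`, then
`Φ_n(G,H) < r(G,H) - 2` for all `n` with `r(G,H) ≤ n ≤ r(G,H) + δ - 2`, in particular for
`n = r(G,H)`.  Hence the identity of Q1 does not hold for all graphs and all `n`. -/
theorem result :
    (∀ (V W : Type) [Fintype V] [Fintype W] [Nonempty V] [Nonempty W]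
      (G : SimpleGraph V) (H : SimpleGraph W) (δ : ℕ), 2 ≤ δ → (∀ v, δ ≤ deg G v) →
      (∀ w, δ ≤ deg H w) → ∀ n : ℕ, ramsey G H ≤ n → n + 2 ≤ ramsey G H + δ →
      Phi G H n < ramsey G H - 2) ∧
    ¬ (∀ (a b : ℕ) (G : SimpleGraph (Fin a)) (H : SimpleGraph (Fin b)), 0 < a → 0 < b →
      (∀ v, 0 < deg G v) → (∀ w, 0 < deg H w) → ∀ n : ℕ, ramsey G H ≤ n →
      Phi G H n = ramsey G H - 2) := by
  have key : ∀ (V W : Type) [Fintype V] [Fintype W] [Nonempty V] [Nonempty W]
      (G : SimpleGraph V) (H : SimpleGraph W) (δ : ℕ), 2 ≤ δ → (∀ v, δ ≤ deg G v) →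
      (∀ w, δ ≤ deg H w) → ∀ n : ℕ, ramsey G H ≤ n → n + 2 ≤ ramsey G H + δ →
      Phi G H n < ramsey G H - 2 := by
    intro V W _ _ _ _ G H δ hδ hG hH n hn hn'
    have h1 := Phi_le hG hH hn
    have h2 := three_le_ramsey hG hH
    omega
  refine ⟨key, fun h => ?_⟩
  have hdeg : ∀ v : Fin 3, 2 ≤ deg (⊤ : SimpleGraph (Fin 3)) v := by
    intro v
    have h1 := deg_compl (⊤ : SimpleGraph (Fin 3)) v
    have h2 : deg (⊤ : SimpleGraph (Fin 3))ᶜ v = 0 := by
      rw [compl_top]
      unfold deg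
      rw [show (⊥ : SimpleGraph (Fin 3)).neighborSet v = ∅ from by ext w; simp]
      exact Set.ncard_empty _
    omega
  have h1 := key (Fin 3) (Fin 3) ⊤ ⊤ 2 le_rfl hdeg hdeg _ le_rfl le_rfl
  have h2 := h 3 3 ⊤ ⊤ (by norm_num) (by norm_num) (fun v => by have := hdeg v; omega)
    (fun v => by have := hdeg v; omega) _ le_rfl
  omega

end Pool.Agent.Results.MP_f2857b_co.SpreadFails
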